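import Pool.Agent.Helper75.Torus.Goals
import Pool.Agent.Helper94.Slab.FD

set_option autoImplicit false

open Set Matrix

namespace Pool.Agent.Helper60.TorusBETA1

open Pool.Agent.Helper75.Torus

theorem trn_add (J : E →L[ℝ] E) (a b : E) : trn J (a + b) = trn J a + trn J b := by
  funext i
  simp [trn, add_dotProduct]

theorem trn_smul (J : E →L[ℝ] E) (r : ℝ) (a : E) : trn J (r • a) = r • trn J a := by
  funext i
  simp [trn, smul_dotProduct]

/-- the operator of the amplitude equation -/
noncomputable def opA (c : ℝ) (J : E →L[ℝ] E) (κ : E) : E →L[ℝ] E :=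
  LinearMap.toContinuousLinearMap
    { toFun := bRHS c J κ
      map_add' := by
        intro a b
        simp only [bRHS, map_add, trn_add, smul_add]
      map_smul' := by
        intro r a
        simp only [bRHS, map_smul, trn_smul, RingHom.id_apply]
        rw [smul_comm] }

theorem opA_apply (c : ℝ) (J : E →L[ℝ] E) (κ b : E) : opA c J κ b = bRHS c J κ b := rfl

theorem cont_cross {T : Type*} [TopologicalSpace T] {s : Set T} {f g : T → E}
    (hf : ContinuousOn f s) (hg : ContinuousOn g s) :
    ContinuousOn (fun x => crossProduct (f x) (g x)) s := by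
  have hf' : ∀ i, ContinuousOn (fun x => f x i) s := fun i => continuousOn_pi.1 hf i
  have hg' : ∀ i, ContinuousOn (fun x => g x i) s := fun i => continuousOn_pi.1 hg i
  refine continuousOn_pi.2 fun i => ?_
  simp only [cross_apply]
  fin_cases i
  · exact ((hf' 1).mul (hg' 2)).sub ((hf' 2).mul (hg' 1))
  · exact ((hf' 2).mul (hg' 0)).sub ((hf' 0).mul (hg' 2))
  · exact ((hf' 0).mul (hg' 1)).sub ((hf' 1).mul (hg' 0))

theorem cont_dot {T : Type*} [TopologicalSpace T] {s : Set T} {f g : T → E}
    (hf : ContinuousOn f s) (hg : ContinuousOn g s) :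
    ContinuousOn (fun x => f x ⬝ᵥ g x) s := by
  have hf' : ∀ i, ContinuousOn (fun x => f x i) s := fun i => continuousOn_pi.1 hf i
  have hg' : ∀ i, ContinuousOn (fun x => g x i) s := fun i => continuousOn_pi.1 hg i
  simp only [dotProduct]
  exact continuousOn_finsetSum _ fun i _ => (hf' i).mul (hg' i)

theorem cont_cofv {T : Type*} [TopologicalSpace T] {s : Set T} {J : T → E →L[ℝ] E} (κ : E)
    (hJ : ContinuousOn J s) : ContinuousOn (fun x => cofv (J x) κ) s := by
  have h : ∀ a : E, ContinuousOn (fun x => J x a) s := fun a => hJ.clm_apply continuousOn_const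
  exact (((cont_cross (h (ee 1)) (h (ee 2))).const_smul (κ 0)).add
    ((cont_cross (h (ee 2)) (h (ee 0))).const_smul (κ 1))).add
    ((cont_cross (h (ee 0)) (h (ee 1))).const_smul (κ 2))

theorem cont_trn {T : Type*} [TopologicalSpace T] {s : Set T} {J : T → E →L[ℝ] E} {f : T → E}
    (hJ : ContinuousOn J s) (hf : ContinuousOn f s) : ContinuousOn (fun x => trn (J x) (f x)) s := by
  have h : ∀ a : E, ContinuousOn (fun x => J x a) s := fun a => hJ.clm_apply continuousOn_const
  exact continuousOn_pi.2 fun i => cont_dot hf (h _)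

theorem thm (hCOF : G_COF) : G_BETA1 := by
  intro t J κ b c ht hJ hdet hκ hb
  have hκ0 : κ ≠ 0 := by
    intro h
    rw [h] at hκ
    simp at hκ
  have hpos : ∀ s ∈ Icc 0 t, cofv (J s) κ ⬝ᵥ cofv (J s) κ ≠ 0 := by
    intro s hs h0
    have h := (hCOF (J s) (hdet s hs)).2.2.2.2.2.2.2 κ hκ0
    rw [nn, h0, Real.sqrt_zero] at h
    exact lt_irrefl _ h
  have hA : ContinuousOn (fun s => opA c (J s) κ) (Icc 0 t) := by
    rw [continuousOn_clm_apply]
    intro y
    have hcof := cont_cofv κ hJ
    have h1 : ContinuousOn (fun s => -(c / (cofv (J s) κ ⬝ᵥ cofv (J s) κ))) (Icc 0 t) :=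
      (continuousOn_const.div (cont_dot hcof hcof) hpos).neg
    have h2 : ContinuousOn (fun s => J s y) (Icc 0 t) := hJ.clm_apply continuousOn_const
    exact h1.smul (cont_cross continuousOn_const (cont_trn hJ h2))
  obtain ⟨β, h0, h1⟩ := Pool.Agent.Helper94.Slab.lin_global ht hA b
  exact ⟨β, ⟨h1, by rw [h0]; exact hb⟩, h0⟩

end Pool.Agent.Helper60.TorusBETA1
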